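import Mathlib

set_option autoImplicit false

namespace Pool.Agent.Results.MP_4c2ece_co.Disproof

/-- `G'` is a minor of `G`: there are pairwise disjoint branch sets in `G`, one for each vertex of
`G'`, each inducing a (non-empty) connected subgraph of `G`, such that every edge of `G'` is
realised by an edge of `G` between the two branch sets. -/
def IsMinor {W V : Type} (G' : SimpleGraph W) (G : SimpleGraph V) : Prop :=
  ∃ β : W → Set V, (∀ w, (G.induce (β w)).Connected) ∧
    (∀ w w', w ≠ w' → Disjoint (β w) (β w')) ∧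
    ∀ w w', G'.Adj w w' → ∃ x ∈ β w, ∃ y ∈ β w', G.Adj x y

/-- A class of graphs, given by its membership predicate. -/
abbrev GraphClass := ∀ V : Type, SimpleGraph V → Prop

/-- A class of finite graphs is minor-closed if it contains every minor of each of its members
(in particular it is closed under isomorphism). -/
def MinorClosed (H : GraphClass) : Prop :=
  ∀ (V W : Type) [Finite V] [Finite W] (G : SimpleGraph V) (G' : SimpleGraph W),
    H V G → IsMinor G' G → H W G'

/-- The graph obtained from `G` by identifying every class of `r` to a single vertex. Two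
different classes are adjacent iff some edge of `G` joins them. -/
def identify {V : Type} (G : SimpleGraph V) (r : Setoid V) : SimpleGraph (Quotient r) where
  Adj a b := a ≠ b ∧ ∃ x y, Quotient.mk r x = a ∧ Quotient.mk r y = b ∧ G.Adj x y
  symm := ⟨by
    rintro a b ⟨hne, x, y, hx, hy, h⟩
    exact ⟨hne.symm, y, x, hy, hx, h.symm⟩⟩
  loopless := ⟨by
    rintro a ⟨hne, -⟩
    exact hne rfl⟩

/-- `G` admits a `k`-identification to `H`: for some set `X` of at most `k` vertices and some
partition of `X` (given by an equivalence relation whose classes outside `X` are singletons),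
identifying each part to a single vertex yields a graph in `H`. -/
def AdmitsIdentification (H : GraphClass) (k : ℕ) {V : Type} (G : SimpleGraph V) : Prop :=
  ∃ X : Finset V, X.card ≤ k ∧ ∃ r : Setoid V,
    (∀ x y, r x y → x = y ∨ (x ∈ X ∧ y ∈ X)) ∧ H (Quotient r) (identify G r)

/-- The equivalence relation whose only non-trivial class is `{u, v}`. -/
def pair {V : Type} (u v : V) : Setoid V where
  r x y := x = y ∨ (x = u ∧ y = v) ∨ (x = v ∧ y = u)
  iseqv := {
    refl := fun x => Or.inl rfl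
    symm := by
      rintro x y (h | ⟨h1, h2⟩ | ⟨h1, h2⟩)
      · exact Or.inl h.symm
      · exact Or.inr (Or.inr ⟨h2, h1⟩)
      · exact Or.inr (Or.inl ⟨h2, h1⟩)
    trans := by
      rintro x y z (h | ⟨h1, h2⟩ | ⟨h1, h2⟩) (h' | ⟨h1', h2'⟩ | ⟨h1', h2'⟩) <;> subst_vars <;> simp }

/-- `H` can be reached from `G` by exactly `k` successive edge contractions. -/
def ContractsInto (H : GraphClass) : ℕ → ∀ V : Type, SimpleGraph V → Prop
  | 0, V, G => H V G
  | k + 1, V, G => ∃ u v : V, G.Adj u v ∧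
      ContractsInto H k (Quotient (pair u v)) (identify G (pair u v))

/-- The identification distance to `H`. -/
noncomputable def idDist (H : GraphClass) {V : Type} (G : SimpleGraph V) : ℕ :=
  sInf {k | AdmitsIdentification H k G}

/-- The contraction distance to `H`. -/
noncomputable def ecDist (H : GraphClass) {V : Type} (G : SimpleGraph V) : ℕ :=
  sInf {k | ContractsInto H k V G}

/-! ### The class -/

/-- After deleting at most one vertex there is no claw minor. -/
def Cls : GraphClass := fun V G =>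
  ∃ S : Set V, S.Subsingleton ∧ ∀ B : Set V, Disjoint B S → (G.induce B).Connected →
    ∀ x y z : V, x ∉ B → y ∉ B → z ∉ B → x ∉ S → y ∉ S → z ∉ S → x ≠ y → x ≠ z → y ≠ z →
      (∃ b ∈ B, G.Adj b x) → (∃ b ∈ B, G.Adj b y) → (∃ b ∈ B, G.Adj b z) → False

theorem reach_mono {V : Type} {G : SimpleGraph V} {s t : Set V} (hst : s ⊆ t) {x y : V}
    (hx : x ∈ s) (hy : y ∈ s) (h : (G.induce s).Reachable ⟨x, hx⟩ ⟨y, hy⟩) :
    (G.induce t).Reachable ⟨x, hst hx⟩ ⟨y, hst hy⟩ :=
  h.map (SimpleGraph.induceHomOfLE G hst).toHom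

theorem union_connected {V W : Type} {G : SimpleGraph V} {G' : SimpleGraph W} {β : W → Set V}
    (hc : ∀ w, (G.induce (β w)).Connected)
    (he : ∀ w w', G'.Adj w w' → ∃ x ∈ β w, ∃ y ∈ β w', G.Adj x y)
    {B' : Set W} (hB' : (G'.induce B').Connected) :
    (G.induce (⋃ w ∈ B', β w)).Connected := by
  have hsub : ∀ w ∈ B', β w ⊆ ⋃ w ∈ B', β w := fun w hw => Set.subset_biUnion_of_mem hw
  have step : ∀ (a b : B') (_ : (G'.induce B').Reachable a b), ∀ x (hx : x ∈ β a) y
      (hy : y ∈ β b), (G.induce (⋃ w ∈ B', β w)).Reachable ⟨x, hsub a a.2 hx⟩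
        ⟨y, hsub b b.2 hy⟩ := by
    intro a b hab
    obtain ⟨p⟩ := hab
    induction p with
    | nil =>
      intro x hx y hy
      exact reach_mono (hsub _ (Subtype.mem _)) hx hy ((hc _).preconnected _ _)
    | @cons a c b hac _ ih =>
      intro x hx y hy
      obtain ⟨x', hx', y', hy', hadj⟩ := he a c hac
      have h1 := reach_mono (hsub a a.2) hx hx' ((hc a).preconnected _ _)
      have h2 : (G.induce (⋃ w ∈ B', β w)).Adj ⟨x', hsub a a.2 hx'⟩ ⟨y', hsub c c.2 hy'⟩ := hadj
      exact h1.trans (h2.reachable.trans (ih y' hy' y hy))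
  obtain ⟨⟨b, hb⟩⟩ := hB'.nonempty
  obtain ⟨⟨x0, hx0⟩⟩ := (hc b).nonempty
  refine (SimpleGraph.connected_iff _).mpr ⟨?_, ⟨⟨x0, hsub b hb hx0⟩⟩⟩
  rintro ⟨x, hx⟩ ⟨y, hy⟩
  obtain ⟨a, ha, hxa⟩ := Set.mem_iUnion₂.mp hx
  obtain ⟨c, hc', hyc⟩ := Set.mem_iUnion₂.mp hy
  exact step ⟨a, ha⟩ ⟨c, hc'⟩ (hB'.preconnected _ _) x hxa y hyc

theorem cls_minorClosed : MinorClosed Cls := by
  rintro V W _ _ G G' ⟨S, hS, hG⟩ ⟨β, hc, hd, he⟩
  have hdis : ∀ {w w' : W} {x : V}, x ∈ β w → x ∈ β w' → w = w' := by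
    intro w w' x h h'
    by_contra hne
    exact Set.disjoint_left.mp (hd w w' hne) h h'
  refine ⟨{w | ∃ x ∈ β w, x ∈ S}, ?_, ?_⟩
  · rintro w ⟨x, hx, hxS⟩ w' ⟨x', hx', hxS'⟩
    have := hS hxS hxS'
    subst this
    exact hdis hx hx'
  · intro B' hB' hcon x y z hxB hyB hzB hxS hyS hzS hxy hxz hyz hx hy hz
    have lift : ∀ a : W, a ∉ B' → a ∉ {w | ∃ x ∈ β w, x ∈ S} → (∃ b ∈ B', G'.Adj b a) →
        ∃ a' ∈ β a, a' ∉ (⋃ w ∈ B', β w) ∧ a' ∉ S ∧ ∃ b ∈ (⋃ w ∈ B', β w), G.Adj b a' := by
      rintro a haB haS ⟨b, hb, hba⟩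
      obtain ⟨b', hb', a', ha', hadj⟩ := he b a hba
      refine ⟨a', ha', ?_, ?_, b', Set.mem_biUnion hb hb', hadj⟩
      · intro hmem
        obtain ⟨w, hw, haw⟩ := Set.mem_iUnion₂.mp hmem
        have := hdis ha' haw
        subst this
        exact haB hw
      · intro hmem
        exact haS ⟨a', ha', hmem⟩
    obtain ⟨x', hx', hx1, hx2, hx3⟩ := lift x hxB hxS hx
    obtain ⟨y', hy', hy1, hy2, hy3⟩ := lift y hyB hyS hy
    obtain ⟨z', hz', hz1, hz2, hz3⟩ := lift z hzB hzS hz
    refine hG (⋃ w ∈ B', β w) ?_ (union_connected hc he hcon) x' y' z' hx1 hy1 hz1 hx2 hy2 hz2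
      ?_ ?_ ?_ hx3 hy3 hz3
    · rw [Set.disjoint_left]
      intro a ha haS
      obtain ⟨w, hw, haw⟩ := Set.mem_iUnion₂.mp ha
      exact Set.disjoint_left.mp hB' hw ⟨a, haw, haS⟩
    · rintro rfl
      exact hxy (hdis hx' hy')
    · rintro rfl
      exact hxz (hdis hx' hz')
    · rintro rfl
      exact hyz (hdis hy' hz')

/-! ### Contractions always reach the class -/

theorem mk_eq {V : Type} {u v x y : V} :
    Quotient.mk (pair u v) x = Quotient.mk (pair u v) y ↔
      x = y ∨ (x = u ∧ y = v) ∨ (x = v ∧ y = u) := by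
  rw [Quotient.eq]
  rfl

theorem exists_contraction (n : ℕ) : ∀ (V : Type) [Finite V] (G : SimpleGraph V),
    Nat.card V = n → ∃ k, ContractsInto Cls k V G := by
  induction n using Nat.strong_induction_on with
  | _ n ih =>
    intro V _ G hn
    by_cases h : ∃ u v, G.Adj u v
    · obtain ⟨u, v, huv⟩ := h
      have hlt : Nat.card (Quotient (pair u v)) < n := by
        rw [← hn]
        have hsurj : Function.Surjective (Quotient.mk (pair u v)) := Quotient.mk_surjective
        by_contra hge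
        have hbij := Function.Surjective.bijective_of_nat_card_le hsurj (not_lt.mp hge)
        have huv' : u = v := hbij.injective (mk_eq.mpr (Or.inr (Or.inl ⟨rfl, rfl⟩)))
        exact G.ne_of_adj huv huv'
      obtain ⟨k, hk⟩ := ih _ hlt (Quotient (pair u v)) (identify G (pair u v)) rfl
      exact ⟨k + 1, u, v, huv, hk⟩
    · refine ⟨0, ∅, Set.subsingleton_empty, ?_⟩
      rintro B - - x y z - - - - - - - - - ⟨b, -, hb⟩ - -
      exact h ⟨b, x, hb⟩

/-! ### The obstruction that survives contractions -/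

/-- Two hubs `A`, `B` with at least `m + 4` pendant neighbours each, at distance more than `m`
(witnessed by a `1`-Lipschitz function). -/
def Obs (m : ℕ) (V : Type) (G : SimpleGraph V) : Prop :=
  ∃ (A B : V) (LA LB : Finset V) (d : V → ℕ), m + 4 ≤ LA.card ∧ m + 4 ≤ LB.card ∧
    (∀ x ∈ LA, ∀ y, G.Adj x y ↔ y = A) ∧ (∀ x ∈ LB, ∀ y, G.Adj x y ↔ y = B) ∧
    (∀ x y, G.Adj x y → d x ≤ d y + 1) ∧ d A + m + 1 ≤ d B

theorem hub_absurd {V : Type} {G : SimpleGraph V} {S : Set V} (hS : S.Subsingleton)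
    (hG : ∀ B : Set V, Disjoint B S → (G.induce B).Connected →
    ∀ x y z : V, x ∉ B → y ∉ B → z ∉ B → x ∉ S → y ∉ S → z ∉ S → x ≠ y → x ≠ z → y ≠ z →
      (∃ b ∈ B, G.Adj b x) → (∃ b ∈ B, G.Adj b y) → (∃ b ∈ B, G.Adj b z) → False)
    (C : V) (hC : C ∉ S) (L : Finset V) (hL : 4 ≤ L.card)
    (hadj : ∀ x ∈ L, ∀ y, G.Adj x y ↔ y = C) : False := by
  classical
  have h3 : 2 < (L.filter (fun x => x ∉ S)).card := by
    have hle : (L.filter (fun x => x ∈ S)).card ≤ 1 := by
      rw [Finset.card_le_one]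
      intro a ha b hb
      exact hS (Finset.mem_filter.mp ha).2 (Finset.mem_filter.mp hb).2
    have := Finset.card_filter_add_card_filter_not (s := L) (fun x => x ∈ S)
    omega
  obtain ⟨x, hx, y, hy, z, hz, hxy, hxz, hyz⟩ := Finset.two_lt_card.mp h3
  rw [Finset.mem_filter] at hx hy hz
  have hne : ∀ a ∈ L, a ∉ ({C} : Set V) := by
    intro a ha hmem
    have : a = C := hmem
    subst this
    exact G.irrefl ((hadj a ha a).mpr rfl)
  have hnb : ∀ a ∈ L, ∃ b ∈ ({C} : Set V), G.Adj b a := fun a ha =>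
    ⟨C, rfl, ((hadj a ha C).mpr rfl).symm⟩
  refine hG {C} ?_ ?_ x y z (hne x hx.1) (hne y hy.1) (hne z hz.1) hx.2 hy.2 hz.2 hxy hxz hyz
    (hnb x hx.1) (hnb y hy.1) (hnb z hz.1)
  · rw [Set.disjoint_singleton_left]
    exact hC
  · have : Nonempty ({C} : Set V) := ⟨⟨C, rfl⟩⟩
    have : Subsingleton ({C} : Set V) := ⟨fun a b => Subtype.ext (a.2.trans b.2.symm)⟩
    exact SimpleGraph.Connected.of_subsingleton

theorem obs_zero_not_cls {V : Type} {G : SimpleGraph V} (h : Obs 0 V G) : ¬ Cls V G := by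
  obtain ⟨A, B, LA, LB, d, hA, hB, hLA, hLB, -, hd⟩ := h
  rintro ⟨S, hS, hG⟩
  have hAB : A ≠ B := by
    rintro rfl
    omega
  by_cases hAS : A ∈ S
  · have hBS : B ∉ S := fun hBS => hAB (hS hAS hBS)
    exact hub_absurd hS hG B hBS LB hB hLB
  · exact hub_absurd hS hG A hAS LA hA hLA

/-- Leaves survive. -/
theorem leaves_survive {V : Type} {G : SimpleGraph V} {u v : V} (huv : G.Adj u v) {m : ℕ}
    {A : V} {LA : Finset V} (hcard : m + 1 + 4 ≤ LA.card) (hLA : ∀ x ∈ LA, ∀ y, G.Adj x y ↔ y = A) :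
    ∃ L' : Finset (Quotient (pair u v)), m + 4 ≤ L'.card ∧
      ∀ x ∈ L', ∀ y, (identify G (pair u v)).Adj x y ↔ y = Quotient.mk _ A := by
  classical
  refine ⟨((LA.erase u).erase v).image (Quotient.mk (pair u v)), ?_, ?_⟩
  · rw [Finset.card_image_of_injOn]
    · have hnot : ¬ (u ∈ LA ∧ v ∈ LA) := by
        rintro ⟨hu, hv⟩
        have h1 := (hLA u hu v).mp huv
        have h2 := (hLA v hv u).mp huv.symm
        exact G.ne_of_adj huv (h2.trans h1.symm)
      by_cases hu : u ∈ LA
      · have hv : v ∉ LA.erase u := fun h => hnot ⟨hu, Finset.mem_of_mem_erase h⟩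
        rw [Finset.erase_eq_of_notMem hv]
        have := Finset.card_erase_add_one hu
        omega
      · rw [Finset.erase_eq_of_notMem hu]
        have := Finset.pred_card_le_card_erase (s := LA) (a := v)
        omega
    · intro a ha b hb hab
      simp only [Finset.coe_erase, Set.mem_sdiff, Set.mem_singleton_iff, Finset.mem_coe] at ha hb
      rcases mk_eq.mp hab with h | ⟨h, -⟩ | ⟨h, -⟩
      · exact h
      · exact absurd h ha.1.2
      · exact absurd h ha.2
  · intro q hq y
    obtain ⟨x, hx, rfl⟩ := Finset.mem_image.mp hq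
    simp only [Finset.mem_erase] at hx
    obtain ⟨hxv, hxu, hxL⟩ := hx
    constructor
    · rintro ⟨-, a, b, ha, hb, hab⟩
      have hax : a = x := by
        rcases mk_eq.mp ha with h | ⟨-, h⟩ | ⟨-, h⟩
        · exact h
        · exact absurd h hxv
        · exact absurd h hxu
      subst hax
      rw [← hb, (hLA a hxL b).mp hab]
    · rintro rfl
      have hadj : G.Adj x A := (hLA x hxL A).mpr rfl
      refine ⟨?_, x, A, rfl, rfl, hadj⟩
      intro h
      rcases mk_eq.mp h with h | ⟨h, -⟩ | ⟨h, -⟩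
      · exact G.ne_of_adj hadj h
      · exact absurd h hxu
      · exact absurd h hxv

theorem obs_step {m : ℕ} {V : Type} {G : SimpleGraph V} (h : Obs (m + 1) V G) {u v : V}
    (huv : G.Adj u v) : Obs m (Quotient (pair u v)) (identify G (pair u v)) := by
  obtain ⟨A, B, LA, LB, d, hA, hB, hLA, hLB, hd, hdAB⟩ := h
  obtain ⟨LA', hA', hLA'⟩ := leaves_survive huv (by omega) hLA
  obtain ⟨LB', hB', hLB'⟩ := leaves_survive huv (by omega) hLB
  -- collapse one level of `d`
  have hex : ∃ g : ℕ → ℕ, g (d u) = g (d v) ∧ (∀ s t, t ≤ s + 1 → g t ≤ g s + 1) ∧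
      (∀ t, g t ≤ t ∧ t ≤ g t + 1) := by
    by_cases he : d u = d v
    · exact ⟨id, by rw [he], fun s t h => h, fun t => ⟨le_rfl, Nat.le_succ t⟩⟩
    · have h1 := hd u v huv
      have h2 := hd v u huv.symm
      refine ⟨fun t => if t ≤ min (d u) (d v) then t else t - 1, ?_, ?_, ?_⟩
      · simp only
        split_ifs <;> omega
      · intro s t hst
        simp only
        split_ifs <;> omega
      · intro t
        simp only
        split_ifs <;> omega
  obtain ⟨g, hg1, hg2, hg3⟩ := hex
  refine ⟨Quotient.mk _ A, Quotient.mk _ B, LA', LB',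
    Quotient.lift (fun x => g (d x)) ?_, hA', hB', hLA', hLB', ?_, ?_⟩
  · rintro a b (h | ⟨h1, h2⟩ | ⟨h1, h2⟩)
    · simp only [h]
    · simp only [h1, h2, hg1]
    · simp only [h1, h2, hg1]
  · rintro x y ⟨-, a, b, rfl, rfl, hab⟩
    exact hg2 _ _ (hd a b hab)
  · have e1 : Quotient.lift (fun x => g (d x)) (by
        rintro a b (h | ⟨h1, h2⟩ | ⟨h1, h2⟩)
        · simp only [h]
        · simp only [h1, h2, hg1]
        · simp only [h1, h2, hg1]) (Quotient.mk (pair u v) A) = g (d A) := rfl
    have e2 : Quotient.lift (fun x => g (d x)) (by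
        rintro a b (h | ⟨h1, h2⟩ | ⟨h1, h2⟩)
        · simp only [h]
        · simp only [h1, h2, hg1]
        · simp only [h1, h2, hg1]) (Quotient.mk (pair u v) B) = g (d B) := rfl
    rw [e1, e2]
    have := (hg3 (d A)).1
    have := (hg3 (d B)).2
    omega

theorem obs_not_contracts (k : ℕ) : ∀ (m : ℕ) (V : Type) (G : SimpleGraph V), k ≤ m →
    Obs m V G → ¬ ContractsInto Cls k V G := by
  induction k with
  | zero =>
    intro m V G _ h hc
    refine obs_zero_not_cls ?_ hc
    obtain ⟨A, B, LA, LB, d, hA, hB, hLA, hLB, hd, hdAB⟩ := h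
    exact ⟨A, B, LA, LB, d, by omega, by omega, hLA, hLB, hd, by omega⟩
  | succ k ih =>
    intro m V G hkm h hc
    obtain ⟨m, rfl⟩ : ∃ m', m = m' + 1 := ⟨m - 1, by omega⟩
    obtain ⟨u, v, huv, hc'⟩ := hc
    exact ih m _ _ (by omega) (obs_step h huv) hc'

/-! ### The example: a path on `n + 2` vertices with `n + 4` leaves attached at each end -/

abbrev Vx (n : ℕ) := Fin (n + 2) ⊕ Bool × Fin (n + 4)

def exAdj (n : ℕ) : Vx n → Vx n → Prop
  | Sum.inl i, Sum.inl j => i.val + 1 = j.val ∨ j.val + 1 = i.val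
  | Sum.inl i, Sum.inr b => (b.1 = true ∧ i.val = 0) ∨ (b.1 = false ∧ i.val = n + 1)
  | Sum.inr b, Sum.inl i => (b.1 = true ∧ i.val = 0) ∨ (b.1 = false ∧ i.val = n + 1)
  | Sum.inr _, Sum.inr _ => False

def Ex (n : ℕ) : SimpleGraph (Vx n) where
  Adj := exAdj n
  symm := ⟨by
    rintro (i | b) (j | c) h <;> simp only [exAdj] at h ⊢ <;> tauto⟩
  loopless := ⟨by
    rintro (i | b) h <;> simp only [exAdj] at h
    omega⟩

def p0 (n : ℕ) : Vx n := Sum.inl ⟨0, by omega⟩
def pN (n : ℕ) : Vx n := Sum.inl ⟨n + 1, by omega⟩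

theorem ex_connected (n : ℕ) : (Ex n).Connected := by
  have hpath : ∀ k (hk : k < n + 2), (Ex n).Reachable (p0 n) (Sum.inl ⟨k, hk⟩) := by
    intro k
    induction k with
    | zero => intro hk; exact SimpleGraph.Reachable.refl _
    | succ k ih =>
      intro hk
      refine (ih (by omega)).trans (SimpleGraph.Adj.reachable ?_)
      exact Or.inl rfl
  have hall : ∀ x, (Ex n).Reachable (p0 n) x := by
    rintro (i | ⟨b, j⟩)
    · exact hpath i.val i.isLt
    · cases b
      · refine (hpath (n + 1) (by omega)).trans (SimpleGraph.Adj.reachable ?_)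
        exact Or.inr ⟨rfl, rfl⟩
      · refine (hpath 0 (by omega)).trans (SimpleGraph.Adj.reachable ?_)
        exact Or.inl ⟨rfl, rfl⟩
  have : Nonempty (Vx n) := ⟨p0 n⟩
  exact ⟨fun x y => (hall x).symm.trans (hall y)⟩

theorem ex_obs (n : ℕ) : Obs n (Vx n) (Ex n) := by
  classical
  refine ⟨p0 n, pN n, Finset.univ.image (fun j : Fin (n + 4) => (Sum.inr (true, j) : Vx n)),
    Finset.univ.image (fun j : Fin (n + 4) => (Sum.inr (false, j) : Vx n)),
    (fun x => match x with
      | Sum.inl i => i.val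
      | Sum.inr b => if b.1 = true then 0 else n + 1), ?_, ?_, ?_, ?_, ?_, ?_⟩
  · rw [Finset.card_image_of_injective]
    · simp
    · intro a b h
      simpa using h
  · rw [Finset.card_image_of_injective]
    · simp
    · intro a b h
      simpa using h
  · intro x hx y
    obtain ⟨j, -, rfl⟩ := Finset.mem_image.mp hx
    rcases y with (i | c)
    · constructor
      · rintro (⟨-, h⟩ | ⟨h, -⟩)
        · exact congrArg Sum.inl (Fin.ext h)
        · exact absurd h (by simp)
      · intro h
        have h' : i = ⟨0, by omega⟩ := Sum.inl.inj h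
        exact Or.inl ⟨rfl, by rw [h']⟩
    · constructor
      · intro h
        exact absurd h (by simp [Ex, exAdj])
      · intro h
        exact absurd h (by simp [p0])
  · intro x hx y
    obtain ⟨j, -, rfl⟩ := Finset.mem_image.mp hx
    rcases y with (i | c)
    · constructor
      · rintro (⟨h, -⟩ | ⟨-, h⟩)
        · exact absurd h (by simp)
        · exact congrArg Sum.inl (Fin.ext h)
      · intro h
        have h' : i = ⟨n + 1, by omega⟩ := Sum.inl.inj h
        exact Or.inr ⟨rfl, by rw [h']⟩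
    · constructor
      · intro h
        exact absurd h (by simp [Ex, exAdj])
      · intro h
        exact absurd h (by simp [pN])
  · rintro (i | ⟨b, j⟩) (i' | ⟨b', j'⟩) h
    · rcases h with h | h
      · simp only; omega
      · simp only; omega
    · rcases h with ⟨h1, h2⟩ | ⟨h1, h2⟩
      · simp only at h1
        subst h1
        simp only [h2]; omega
      · simp only at h1
        subst h1
        simp [h2]
    · rcases h with ⟨h1, h2⟩ | ⟨h1, h2⟩
      · simp only at h1
        subst h1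
        simp
      · simp only at h1
        subst h1
        simp [h2]
    · exact absurd h (by simp [Ex, exAdj])
  · simp only [p0, pN]; omega

/-! ### Identifying the two ends -/

theorem line_aux {Q : Type} {G : SimpleGraph Q} {S : Set Q} {h : Q → ℤ}
    (hinj : ∀ x y, x ∉ S → y ∉ S → h x = h y → x = y)
    (hadj : ∀ x y, x ∉ S → y ∉ S → G.Adj x y → h x = h y + 1 ∨ h y = h x + 1)
    {B : Set Q} (hB : Disjoint B S) (hconn : (G.induce B).Connected) {x y z : Q}
    (hy : y ∉ B) (hxS : x ∉ S) (hyS : y ∉ S) (hzS : z ∉ S)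
    (hxy : h x < h y) (hyz : h y < h z)
    (hbx : ∃ b ∈ B, G.Adj b x) (hbz : ∃ b ∈ B, G.Adj b z) : False := by
  have hBS : ∀ b ∈ B, b ∉ S := fun b hb => Set.disjoint_left.mp hB hb
  have hne : ∀ b ∈ B, h b ≠ h y := by
    intro b hb he
    have := hinj b y (hBS b hb) hyS he
    subst this
    exact hy hb
  obtain ⟨b, hb, hbadj⟩ := hbx
  obtain ⟨c, hc, hcadj⟩ := hbz
  have h1 : h b < h y := by
    have := hadj b x (hBS b hb) hxS hbadj
    have := hne b hb
    omega
  have h2 : h y < h c := by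
    have := hadj c z (hBS c hc) hzS hcadj
    have := hne c hc
    omega
  have key : ∀ (a a' : B), (G.induce B).Reachable a a' → h a < h y → h a' < h y := by
    intro a a' haa'
    obtain ⟨p⟩ := haa'
    induction p with
    | nil => exact fun h => h
    | @cons a a1 a2 ha _ ih =>
      intro hlt
      apply ih
      have hg : G.Adj a a1 := ha
      have := hadj a a1 (hBS a a.2) (hBS a1 a1.2) hg
      have := hne a1 a1.2
      omega
  have := key ⟨b, hb⟩ ⟨c, hc⟩ (hconn.preconnected _ _) h1
  simp only at this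
  omega

theorem cls_of_line {Q : Type} {G : SimpleGraph Q} {S : Set Q} (hS : S.Subsingleton) {h : Q → ℤ}
    (hinj : ∀ x y, x ∉ S → y ∉ S → h x = h y → x = y)
    (hadj : ∀ x y, x ∉ S → y ∉ S → G.Adj x y → h x = h y + 1 ∨ h y = h x + 1) :
    Cls Q G := by
  refine ⟨S, hS, ?_⟩
  intro B hB hc x y z hx hy hz hxS hyS hzS hxy hxz hyz bx by' bz
  have n1 : h x ≠ h y := fun e => hxy (hinj x y hxS hyS e)
  have n2 : h x ≠ h z := fun e => hxz (hinj x z hxS hzS e)
  have n3 : h y ≠ h z := fun e => hyz (hinj y z hyS hzS e)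
  rcases lt_or_gt_of_ne n1 with a1 | a1 <;> rcases lt_or_gt_of_ne n2 with a2 | a2 <;>
    rcases lt_or_gt_of_ne n3 with a3 | a3
  · exact line_aux hinj hadj hB hc hy hxS hyS hzS a1 a3 bx bz
  · exact line_aux hinj hadj hB hc hz hxS hzS hyS a2 a3 bx by'
  · omega
  · exact line_aux hinj hadj hB hc hx hzS hxS hyS a2 a1 bz by'
  · exact line_aux hinj hadj hB hc hx hyS hxS hzS a1 a2 by' bz
  · omega
  · exact line_aux hinj hadj hB hc hz hyS hzS hxS a3 a2 by' bx
  · exact line_aux hinj hadj hB hc hy hzS hyS hxS a3 a1 bz bx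

/-- Positions on a line. -/
def hpos (n : ℕ) : Vx n → ℤ
  | Sum.inl i => i.val
  | Sum.inr (true, j) => n + 4 + j.val
  | Sum.inr (false, j) => -2 - j.val

theorem hpos_inj (n : ℕ) {x y : Vx n} (h : hpos n x = hpos n y) : x = y := by
  rcases x with (i | ⟨_ | _, j⟩) <;> rcases y with (i' | ⟨_ | _, j'⟩) <;> simp only [hpos] at h
  · congr 1; exact Fin.ext (by omega)
  · omega
  · have := i.isLt; omega
  · omega
  · congr 2; exact Fin.ext (by omega)
  · omega
  · have := i'.isLt; omega
  · omega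
  · congr 2; exact Fin.ext (by omega)

theorem ex_ident (n : ℕ) : AdmitsIdentification Cls 2 (Ex n) := by
  classical
  refine ⟨{p0 n, pN n}, Finset.card_le_two, pair (p0 n) (pN n), ?_, ?_⟩
  · rintro x y (h | ⟨h1, h2⟩ | ⟨h1, h2⟩)
    · exact Or.inl h
    · right; simp [h1, h2]
    · right; simp [h1, h2]
  · have hout : ∀ x : Vx n, x ≠ p0 n → x ≠ pN n →
        (Quotient.mk (pair (p0 n) (pN n)) x).out = x := by
      intro x h0 h1
      have := Quotient.out_eq (Quotient.mk (pair (p0 n) (pN n)) x)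
      rcases mk_eq.mp this with h | ⟨-, h⟩ | ⟨-, h⟩
      · exact h
      · exact absurd h h1
      · exact absurd h h0
    have hrep : ∀ q : Quotient (pair (p0 n) (pN n)),
        q ∉ ({Quotient.mk _ (p0 n)} : Set (Quotient (pair (p0 n) (pN n)))) →
        ∃ x : Vx n, q = Quotient.mk _ x ∧ x ≠ p0 n ∧ x ≠ pN n ∧ q.out = x := by
      intro q hq
      obtain ⟨x, rfl⟩ := Quotient.mk_surjective q
      have h0 : x ≠ p0 n := by
        rintro rfl
        exact hq rfl
      have h1 : x ≠ pN n := by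
        rintro rfl
        exact hq (mk_eq.mpr (Or.inr (Or.inr ⟨rfl, rfl⟩)))
      exact ⟨x, rfl, h0, h1, hout x h0 h1⟩
    refine cls_of_line (S := {Quotient.mk _ (p0 n)}) (h := fun q => hpos n q.out)
      Set.subsingleton_singleton ?_ ?_
    · intro q q' hq hq' he
      obtain ⟨x, rfl, -, -, hx⟩ := hrep q hq
      obtain ⟨y, rfl, -, -, hy⟩ := hrep q' hq'
      simp only [hx, hy] at he
      rw [hpos_inj n he]
    · intro q q' hq hq' he
      obtain ⟨x, rfl, hx0, hxN, hx⟩ := hrep q hq
      obtain ⟨y, rfl, hy0, hyN, hy⟩ := hrep q' hq'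
      obtain ⟨-, a, b, ha, hb, hab⟩ := he
      have hax : a = x := by
        rcases mk_eq.mp ha with h | ⟨-, h⟩ | ⟨-, h⟩
        · exact h
        · exact absurd h hxN
        · exact absurd h hx0
      have hby : b = y := by
        rcases mk_eq.mp hb with h | ⟨-, h⟩ | ⟨-, h⟩
        · exact h
        · exact absurd h hyN
        · exact absurd h hy0
      subst hax hby
      simp only [hx, hy]
      rcases a with (i | c) <;> rcases b with (j | c')
      · rcases hab with h | h
        · right; simp only [hpos]; omega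
        · left; simp only [hpos]; omega
      · exfalso
        rcases hab with ⟨-, h⟩ | ⟨-, h⟩
        · exact hx0 (congrArg Sum.inl (Fin.ext h))
        · exact hxN (congrArg Sum.inl (Fin.ext h))
      · exfalso
        rcases hab with ⟨-, h⟩ | ⟨-, h⟩
        · exact hy0 (congrArg Sum.inl (Fin.ext h))
        · exact hyN (congrArg Sum.inl (Fin.ext h))
      · exact absurd hab (by simp [Ex, exAdj])

/-- There is a minor-closed class `H` such that, for every `n`, some finite connected graph `G`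
can be turned into a graph of `H` by edge contractions, has identification distance at most `2`
to `H`, and has contraction distance at least `n` to `H`. -/
theorem result : ∃ H : GraphClass, MinorClosed H ∧
    ∀ n : ℕ, ∃ (V : Type) (_ : Finite V) (G : SimpleGraph V), G.Connected ∧
      AdmitsIdentification H 2 G ∧ idDist H G ≤ 2 ∧
      (∃ k, ContractsInto H k V G) ∧ n ≤ ecDist H G := by
  refine ⟨Cls, cls_minorClosed, fun n => ⟨Vx n, inferInstance, Ex n, ex_connected n,
    ex_ident n, Nat.sInf_le (ex_ident n), exists_contraction _ (Vx n) (Ex n) rfl, ?_⟩⟩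
  obtain ⟨k, hk⟩ := exists_contraction _ (Vx n) (Ex n) rfl
  have hmem : ecDist Cls (Ex n) ∈ {k | ContractsInto Cls k (Vx n) (Ex n)} :=
    Nat.sInf_mem ⟨k, hk⟩
  by_contra hlt
  exact obs_not_contracts _ n (Vx n) (Ex n) (by omega) (ex_obs n) hmem

end Pool.Agent.Results.MP_4c2ece_co.Disproof
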